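import Mathlib

/-!
# Level-`m` paperfolding sequences
-/

set_option autoImplicit false

namespace Pool.Agent.H96.TLC

/-- The level-`m` paperfolding sequence `l_n`, `n ≥ 1`, with values in `{0, ..., 2 ^ m - 1}` (and `l_0 = 0`):
`l_(2n) = l_n`, and `l_n = (r - 1) / 2` for odd `n`, where `r` is the remainder of `n` modulo `2 ^ (m + 1)`. -/
def lev (m n : ℕ) : ℕ :=
  if n = 0 then 0 else if n % 2 = 0 then lev m (n / 2) else n % 2 ^ (m + 1) / 2
decreasing_by omega

end Pool.Agent.H96.TLC
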