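import Pool.Agent.H96.TLCOdd
import Pool.Agent.H96.TLCLev

/-!
# Level-`m` paperfolding sequences and the t-adic Littlewood conjecture: core argument

`lev m` is the level-`m` paperfolding sequence, `M = 2 ^ m`, `a n = lev m (n + M) - lev m n`. Then
`a (n + M) + a n = [n even] a (n / 2)`.
-/

set_option autoImplicit false

open Polynomial

namespace Pool.Agent.H96.TLC

lemma lev_two_mul (m n : ℕ) : lev m (2 * n) = lev m n := by
  rcases Nat.eq_zero_or_pos n with rfl | hn
  · rfl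
  · conv_lhs => rw [lev]
    rw [if_neg (by omega), if_pos (by omega)]
    congr 1
    omega

lemma lev_odd (m n : ℕ) (h : n % 2 = 1) : lev m n = n % 2 ^ (m + 1) / 2 := by
  rw [lev, if_neg (by omega), if_neg (by omega)]

/-- the difference `lev m (n + 2 ^ m) - lev m n` -/
def dl (m n : ℕ) : ℤ := (lev m (n + 2 ^ m) : ℤ) - lev m n

lemma two_pow_even {m : ℕ} (hm : 1 ≤ m) : ∃ c, 2 ^ m = 2 * c ∧ c = 2 ^ (m - 1) := by
  obtain ⟨e, rfl⟩ : ∃ e, m = e + 1 := ⟨m - 1, by omega⟩
  exact ⟨2 ^ e, by rw [pow_succ]; ring, by simp⟩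

lemma dl_odd {m : ℕ} (hm : 1 ≤ m) (n : ℕ) (h : n % 2 = 1) :
    dl m n = if n % 2 ^ (m + 1) < 2 ^ m then 2 ^ (m - 1) else -2 ^ (m - 1) := by
  obtain ⟨c, hc, hc'⟩ := two_pow_even hm
  have h2 : 2 ^ (m + 1) = 2 * 2 ^ m := by rw [pow_succ]; ring
  have hpos : 0 < 2 ^ m := by positivity
  unfold dl
  rw [lev_odd m n h, lev_odd m (n + 2 ^ m) (by omega)]
  have hr : n % 2 ^ (m + 1) < 2 ^ (m + 1) := Nat.mod_lt _ (by positivity)
  have hcz : (2 : ℤ) ^ (m - 1) = (c : ℤ) := by rw [hc']; push_cast; rfl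
  rw [hcz]
  by_cases hlt : n % 2 ^ (m + 1) < 2 ^ m
  · have e : (n + 2 ^ m) % 2 ^ (m + 1) = n % 2 ^ (m + 1) + 2 ^ m := by
      rw [Nat.add_mod, Nat.mod_eq_of_lt (show 2 ^ m < 2 ^ (m + 1) by omega), Nat.mod_eq_of_lt (by omega)]
    rw [if_pos hlt, e]
    generalize n % 2 ^ (m + 1) = r at *
    rw [hc] at *
    omega
  · have e : (n + 2 ^ m) % 2 ^ (m + 1) = n % 2 ^ (m + 1) - 2 ^ m := by
      rw [Nat.add_mod, Nat.mod_eq_of_lt (show 2 ^ m < 2 ^ (m + 1) by omega)]
      rw [Nat.mod_eq_sub_mod (by omega), Nat.mod_eq_of_lt (by omega)]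
      omega
    rw [if_neg hlt, e]
    generalize n % 2 ^ (m + 1) = r at *
    rw [hc] at *
    omega

lemma dl_rec (m n : ℕ) : dl m (n + 2 ^ m) + dl m n = if Even n then dl m (n / 2) else 0 := by
  have h2 : 2 ^ (m + 1) = 2 * 2 ^ m := by rw [pow_succ]; ring
  have e0 : dl m (n + 2 ^ m) + dl m n = (lev m (n + 2 ^ m + 2 ^ m) : ℤ) - lev m n := by
    unfold dl
    ring
  rw [e0]
  rcases Nat.even_or_odd' n with ⟨l, rfl | rfl⟩
  · rw [if_pos (by simp), show 2 * l + 2 ^ m + 2 ^ m = 2 * (l + 2 ^ m) by ring, lev_two_mul, lev_two_mul,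
      show 2 * l / 2 = l by omega]
    rfl
  · rw [if_neg (by simp), lev_odd m (2 * l + 1) (by omega), lev_odd m (2 * l + 1 + 2 ^ m + 2 ^ m) (by omega)]
    have e : (2 * l + 1 + 2 ^ m + 2 ^ m) % 2 ^ (m + 1) = (2 * l + 1) % 2 ^ (m + 1) := by
      rw [show 2 * l + 1 + 2 ^ m + 2 ^ m = 2 * l + 1 + 2 ^ (m + 1) by omega, Nat.add_mod_right]
    rw [e, sub_self]

variable {F : Type*} [Field F]

/-- the difference sequence over `F` -/
def dF (F : Type*) [Field F] (m : ℕ) : ℕ → F := fun n => (dl m n : F)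

/-- the polynomial `X ^ (2 ^ m) + 1` -/
noncomputable def PM (F : Type*) [Field F] (m : ℕ) : F[X] := X ^ (2 ^ m) + 1

lemma PM_monic (m : ℕ) : (PM F m).Monic := by
  have := monic_X_pow_add_C (1 : F) (n := 2 ^ m) (by positivity)
  rwa [C_1] at this

lemma PM_natDegree (m : ℕ) : (PM F m).natDegree = 2 ^ m := by
  have := natDegree_X_pow_add_C (n := 2 ^ m) (r := (1 : F))
  rwa [C_1] at this

lemma act_Xpow (i : ℕ) (a : ℕ → F) (n : ℕ) : act (X ^ i : F[X]) a n = a (i + n) := by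
  unfold act
  rw [map_pow, aeval_X, shiftOp_pow_apply]

lemma act_one (a : ℕ → F) : act (1 : F[X]) a = a := by
  unfold act
  rw [map_one]
  rfl

lemma act_PM_apply (m : ℕ) (a : ℕ → F) (n : ℕ) : act (PM F m) a n = a (n + 2 ^ m) + a n := by
  unfold PM
  rw [act_add_left, Pi.add_apply, act_Xpow, act_one, add_comm (2 ^ m) n]

lemma act_PM (m : ℕ) : act (PM F m) (dF F m) = fun n => if Even n then dF F m (n / 2) else 0 := by
  funext n
  rw [act_PM_apply]
  have h := congrArg (Int.cast : ℤ → F) (dl_rec m n)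
  rw [Int.cast_add] at h
  unfold dF
  rw [h]
  split_ifs
  · rfl
  · simp

/-- twice the odd part -/
lemma odd_part (a : ℕ → F) (n : ℕ) : (a - tw a) n = if Odd n then 2 * a n else 0 := by
  rw [Pi.sub_apply]
  unfold tw
  rcases Nat.even_or_odd n with h | h
  · rw [if_neg (by rwa [Nat.not_odd_iff_even]), h.neg_one_pow]
    ring
  · rw [if_pos h, h.neg_one_pow]
    ring

lemma act_PM_odd {m : ℕ} (hm : 1 ≤ m) : act (PM F m) (dF F m - tw (dF F m)) = 0 := by
  funext n
  obtain ⟨c, hc, -⟩ := two_pow_even hm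
  rw [act_PM_apply, odd_part, odd_part]
  have h := congrFun (act_PM (F := F) m) n
  rw [act_PM_apply] at h
  rcases Nat.even_or_odd n with h1 | h1
  · have h2 : ¬ Odd n := by rwa [Nat.not_odd_iff_even]
    have h3 : ¬ Odd (n + 2 ^ m) := by
      rw [Nat.not_odd_iff_even, hc]
      exact h1.add (even_two_mul c)
    rw [if_neg h2, if_neg h3]
    simp
  · have h2 : ¬ Even n := by rwa [Nat.not_even_iff_odd]
    have h3 : Odd (n + 2 ^ m) := by
      rw [hc]
      exact h1.add_even (even_two_mul c)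
    rw [if_neg h2] at h
    rw [if_pos h1, if_pos h3]
    rw [Pi.zero_apply]
    linear_combination 2 * h

/-- a sequence with `z (n + M) = - z n` and `M` consecutive zeros vanishes -/
lemma anti_zero (z : ℕ → F) (M k : ℕ) (hM : 0 < M) (h : ∀ n, z (n + M) + z n = 0)
    (hz : ∀ n, k + 1 ≤ n → n ≤ k + M → z n = 0) (n : ℕ) : z n = 0 := by
  have up : ∀ n, k + 1 ≤ n → z n = 0 := by
    intro n
    induction n using Nat.strong_induction_on with
    | _ n ih =>
    intro hn
    by_cases h1 : n ≤ k + M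
    · exact hz n hn h1
    · have h2 := h (n - M)
      rw [Nat.sub_add_cancel (by omega), ih (n - M) (by omega) (by omega), add_zero] at h2
      exact h2
  have down : ∀ t, z (n + t * M) = 0 → z n = 0 := by
    intro t
    induction t with
    | zero => intro h1; simpa using h1
    | succ t ih =>
      intro h1
      apply ih
      have h2 := h (n + t * M)
      rw [show n + t * M + M = n + (t + 1) * M by ring, h1, zero_add] at h2
      exact h2
  apply down (k + 1)
  apply up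
  have : (k + 1) * 1 ≤ (k + 1) * M := Nat.mul_le_mul_left _ hM
  omega

/-- values of the odd part -/
lemma odd_value {m : ℕ} (hm : 1 ≤ m) (n : ℕ) (h : n < 2 ^ (m + 1)) (h1 : n % 2 = 1) :
    (dF F m - tw (dF F m)) n = if n < 2 ^ m then 2 ^ m else -2 ^ m := by
  obtain ⟨e, rfl⟩ : ∃ e, m = e + 1 := ⟨m - 1, by omega⟩
  rw [odd_part, if_pos (Nat.odd_iff.2 h1)]
  unfold dF
  rw [dl_odd hm n h1, Nat.mod_eq_of_lt h, show e + 1 - 1 = e by omega]
  split_ifs
  · push_cast
    rw [pow_succ]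
    ring
  · push_cast
    rw [pow_succ]
    ring

/-- a polynomial of degree less than `M` which kills the odd part is zero -/
lemma small_zero {m : ℕ} (hm : 1 ≤ m) (h2 : (2 : F) ≠ 0) (R : F[X]) (hR : R.natDegree < 2 ^ m)
    (h : ∀ n, act R (dF F m - tw (dF F m)) n = 0) : R = 0 := by
  obtain ⟨c, hc, -⟩ := two_pow_even hm
  have hp : 2 ^ (m + 1) = 2 * 2 ^ m := by rw [pow_succ]; ring
  set b := dF F m - tw (dF F m) with hb
  ext j
  rw [coeff_zero]
  by_cases hj : 2 ^ m ≤ j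
  · exact coeff_eq_zero_of_natDegree_lt (by omega)
  push Not at hj
  have e1 := h (2 ^ m - 1 - j)
  have e2 := h (2 ^ m - 1 - j + 2)
  rw [act_apply' _ _ _ (2 ^ m) hR] at e1 e2
  have e3 : ∑ i ∈ Finset.range (2 ^ m), R.coeff i * (b (i + (2 ^ m - 1 - j)) - b (i + (2 ^ m - 1 - j + 2))) = 0 := by
    simp only [mul_sub]
    rw [Finset.sum_sub_distrib, e1, e2, sub_zero]
  rw [Finset.sum_eq_single_of_mem j (Finset.mem_range.2 hj)] at e3
  · rw [show j + (2 ^ m - 1 - j) = 2 ^ m - 1 by omega, show j + (2 ^ m - 1 - j + 2) = 2 ^ m + 1 by omega,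
      hb, odd_value hm _ (by omega) (by omega), odd_value hm _ (by omega) (by omega),
      if_pos (by omega), if_neg (by omega)] at e3
    rcases mul_eq_zero.1 e3 with h3 | h3
    · exact h3
    · exfalso
      have h4 : (2 : F) * 2 ^ m = 0 := by linear_combination h3
      rcases mul_eq_zero.1 h4 with h5 | h5
      · exact h2 h5
      · exact h2 (pow_eq_zero_iff (by omega) |>.1 h5)
  · intro i hi hij
    have hi' := Finset.mem_range.1 hi
    have h5 : b (i + (2 ^ m - 1 - j)) = b (i + (2 ^ m - 1 - j + 2)) := by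
      rcases Nat.even_or_odd (i + (2 ^ m - 1 - j)) with h6 | h6
      · have h7 : ¬ Odd (i + (2 ^ m - 1 - j)) := by rwa [Nat.not_odd_iff_even]
        have h8 : ¬ Odd (i + (2 ^ m - 1 - j + 2)) := by
          rw [Nat.not_odd_iff_even, ← add_assoc]
          exact h6.add even_two
        rw [hb, odd_part, odd_part, if_neg h7, if_neg h8]
      · rw [Nat.odd_iff] at h6
        rw [hb, odd_value hm _ (by omega) h6, odd_value hm _ (by omega) (by omega)]
        by_cases h9 : i + (2 ^ m - 1 - j) < 2 ^ m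
        · rw [if_pos h9, if_pos (by omega)]
        · rw [if_neg h9, if_neg (by omega)]
    rw [h5, sub_self, mul_zero]

/-- If `Q` kills the sequence on a window then `X ^ M + 1` divides `Q(-X) Q`. -/
lemma dvd_mul_of_vanish {m : ℕ} (hm : 1 ≤ m) (h2 : (2 : F) ≠ 0) (Q : F[X]) (k : ℕ)
    (hQ : ∀ j, 1 ≤ j → j ≤ Q.natDegree + 2 ^ m → act Q (dF F m) (k + j) = 0) :
    PM F m ∣ Q.comp (-X) * Q := by
  set D : F[X] := PM F m with hD
  have hDm : D.Monic := PM_monic m
  set a := dF F m with ha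
  set b := a - tw a with hb
  set E : F[X] := Q.comp (-X) * Q with hE
  have hM : 0 < 2 ^ m := by positivity
  have hd : (Q.comp (-X)).natDegree ≤ Q.natDegree := by
    refine (natDegree_comp_le).trans ?_
    simp
  have hEb : ∀ n, k + 1 ≤ n → n ≤ k + 2 ^ m → act E b n = 0 := by
    intro n h1 h2'
    rw [hb, act_sub_right, Pi.sub_apply]
    have e1 : act E a n = 0 := by
      rw [hE, act_mul]
      refine act_eq_zero_of _ _ _ fun i hi => ?_
      have := hQ (i + n - k) (by omega) (by omega)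
      rwa [show k + (i + n - k) = i + n by omega] at this
    have e2 : act E (tw a) n = 0 := by
      rw [hE, mul_comm, act_mul]
      refine act_eq_zero_of _ _ _ fun i hi => ?_
      rw [act_comp_neg]
      have := hQ (i + n - k) (by omega) (by omega)
      rw [show k + (i + n - k) = i + n by omega] at this
      rw [this, mul_zero]
    rw [e1, e2, sub_zero]
  have hER : act E b = act (E %ₘ D) b := by
    have := modByMonic_add_div E (q := D)
    conv_lhs => rw [← this]
    rw [act_add_left, mul_comm, act_mul, hb, ha, hD, act_PM_odd hm, act_zero_right, add_zero]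
  have hRdeg : (E %ₘ D).natDegree < 2 ^ m := by
    have := natDegree_modByMonic_lt E hDm (by
      intro h
      have := PM_natDegree (F := F) m
      rw [← hD, h, natDegree_one] at this
      exact hM.ne this)
    rwa [hD, PM_natDegree] at this
  have hanti : ∀ n, act (E %ₘ D) b (n + 2 ^ m) + act (E %ₘ D) b n = 0 := by
    intro n
    rw [← act_PM_apply, ← act_mul, mul_comm, act_mul, hb, ha, act_PM_odd hm, act_zero_right]
    rfl
  have hz := anti_zero _ _ k hM hanti (fun n h1 h3 => by rw [← hER]; exact hEb n h1 h3)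
  have hRz : E %ₘ D = 0 := small_zero hm h2 _ hRdeg hz
  exact (modByMonic_eq_zero_iff_dvd hDm).mp hRz

/-- over `F_p` the polynomial `Q(-X)` is `Q ^ (p ^ j)` modulo `X ^ M + 1` if `p ^ j = M + 1` modulo `2 M` -/
lemma dvd_comp_sub_pow (p m j : ℕ) [Fact p.Prime] (hj : p ^ j % 2 ^ (m + 1) = 2 ^ m + 1) (Q : (ZMod p)[X]) :
    PM (ZMod p) m ∣ Q.comp (-X) - Q ^ (p ^ j) := by
  have hpow : ∀ i : ℕ, Q.comp (X ^ (p ^ i)) = Q ^ (p ^ i) := by
    intro i
    induction i with
    | zero => simp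
    | succ i ih =>
      have h1 : (Q.comp (X ^ (p ^ i))).comp (X ^ p) = (Q.comp (X ^ (p ^ i))) ^ p := by
        rw [← expand_eq_comp_X_pow, ZMod.expand_card]
      rw [comp_assoc, ih, X_pow_comp, ← pow_mul, ← pow_mul, mul_comm p (p ^ i), ← pow_succ] at h1
      exact h1
  rw [← hpow j]
  have h1 : (-X : (ZMod p)[X]) - X ^ (p ^ j) ∣ Q.comp (-X) - Q.comp (X ^ (p ^ j)) := by
    have := sub_dvd_eval_sub (-X : (ZMod p)[X]) (X ^ (p ^ j)) (Q.map C)
    rwa [eval_map, eval_map] at this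
  refine dvd_trans ?_ h1
  have h2 : p ^ j = 2 ^ m * (2 * (p ^ j / 2 ^ (m + 1)) + 1) + 1 := by
    conv_lhs => rw [← Nat.div_add_mod (p ^ j) (2 ^ (m + 1)), hj]
    rw [pow_succ]
    ring
  have h3 : (X ^ (2 ^ m) + 1 : (ZMod p)[X]) ∣
      (X ^ (2 ^ m)) ^ (2 * (p ^ j / 2 ^ (m + 1)) + 1) + 1 ^ (2 * (p ^ j / 2 ^ (m + 1)) + 1) :=
    Odd.add_dvd_pow_add_pow _ _ ⟨_, rfl⟩
  rw [one_pow, ← pow_mul] at h3
  have h4 : (-X : (ZMod p)[X]) - X ^ (p ^ j) =
      (X ^ (2 ^ m * (2 * (p ^ j / 2 ^ (m + 1)) + 1)) + 1) * (-X) := by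
    conv_lhs => rw [h2]
    rw [pow_succ]
    ring
  rw [h4]
  exact Dvd.dvd.mul_right h3 _

lemma PM_squarefree (m : ℕ) (h2 : (2 : F) ≠ 0) : Squarefree (PM F m) := by
  have h := separable_X_pow_sub_C (n := 2 ^ m) (-1 : F) (by push_cast; exact pow_ne_zero _ h2) (by simp)
  rw [C_neg, C_1, sub_neg_eq_add] at h
  exact h.squarefree

/-- Main theorem in sequence form, over `F_p`. -/
theorem main_level (p m j : ℕ) [Fact p.Prime] (hm : 1 ≤ m) (hj : p ^ j % 2 ^ (m + 1) = 2 ^ m + 1)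
    (h2 : (2 : ZMod p) ≠ 0) :
    ∀ (d : ℕ) (Q : (ZMod p)[X]), Q.natDegree = d → Q ≠ 0 → ∀ k : ℕ,
      ∃ i, 1 ≤ i ∧ i ≤ Q.natDegree + 2 ^ m ∧ act Q (dF (ZMod p) m) (k + i) ≠ 0 := by
  intro d
  induction d using Nat.strong_induction_on with
  | _ d ih =>
  intro Q hQd hQ0 k
  by_contra hcon
  push Not at hcon
  obtain ⟨c0, hc0, -⟩ := two_pow_even hm
  have hM : 0 < 2 ^ m := by positivity
  have hdvd : PM (ZMod p) m ∣ Q := by
    have h1 := dvd_mul_of_vanish hm h2 Q k hcon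
    have h3 := dvd_comp_sub_pow p m j hj Q
    have h4 : PM (ZMod p) m ∣ Q ^ (p ^ j + 1) := by
      have h5 := dvd_sub h1 (Dvd.dvd.mul_right h3 Q)
      have h6 : Q.comp (-X) * Q - (Q.comp (-X) - Q ^ (p ^ j)) * Q = Q ^ (p ^ j + 1) := by
        rw [pow_succ]
        ring
      rwa [h6] at h5
    exact ((PM_squarefree m h2).dvd_pow_iff_dvd (by omega)).1 h4
  obtain ⟨Q₁, hQ₁⟩ := hdvd
  have hD0 : PM (ZMod p) m ≠ 0 := (PM_monic m).ne_zero
  have hQ₁0 : Q₁ ≠ 0 := by rintro rfl; exact hQ0 (by rw [hQ₁, mul_zero])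
  have hdeg : Q.natDegree = 2 ^ m + Q₁.natDegree := by
    rw [hQ₁, natDegree_mul hD0 hQ₁0, PM_natDegree]
  set a : ℕ → ZMod p := dF (ZMod p) m with ha
  set c : ℕ → ZMod p := fun n => if Even n then a (n / 2) else 0 with hc
  have hact : act Q a = act Q₁ c := by
    rw [hQ₁, mul_comm, act_mul, ha, act_PM]
  -- even and odd parts of `Q₁`
  set Qe := contract 2 Q₁ with hQe
  set Qo := contract 2 (divX Q₁) with hQo
  have ce : ∀ i, Qe.coeff i = Q₁.coeff (2 * i) := by
    intro i; rw [hQe, coeff_contract (by norm_num), mul_comm]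
  have co : ∀ i, Qo.coeff i = Q₁.coeff (2 * i + 1) := by
    intro i; rw [hQo, coeff_contract (by norm_num), mul_comm, coeff_divX]
  have de : 2 * Qe.natDegree ≤ Q₁.natDegree := by
    by_cases h : Qe = 0
    · rw [h]; simp
    · have : Q₁.coeff (2 * Qe.natDegree) ≠ 0 := by
        rw [← ce]; exact leadingCoeff_ne_zero.mpr h
      exact le_natDegree_of_ne_zero this
  have dO : Qo ≠ 0 → 2 * Qo.natDegree + 1 ≤ Q₁.natDegree := by
    intro h
    have : Q₁.coeff (2 * Qo.natDegree + 1) ≠ 0 := by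
      rw [← co]; exact leadingCoeff_ne_zero.mpr h
    exact le_natDegree_of_ne_zero this
  -- value of the action of `Q₁` on `c`
  have sumsplit : ∀ (M : ℕ) (f : ℕ → ZMod p), ∑ i ∈ Finset.range (2 * M), f i =
      ∑ i ∈ Finset.range M, (f (2 * i) + f (2 * i + 1)) := by
    intro M f
    induction M with
    | zero => simp
    | succ M ihM =>
      rw [show 2 * (M + 1) = 2 * M + 1 + 1 by ring, Finset.sum_range_succ, Finset.sum_range_succ,
        ihM, Finset.sum_range_succ]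
      ring
  have ve : ∀ n, act Q₁ c (2 * n) = act Qe a n := by
    intro n
    rw [act_apply' Q₁ c _ (2 * (Q₁.natDegree + 1)) (by omega),
      act_apply' Qe _ _ (Q₁.natDegree + 1) (by omega), sumsplit]
    refine Finset.sum_congr rfl fun i _ => ?_
    rw [ce]
    have h1 : c (2 * i + 2 * n) = a (i + n) := by
      rw [hc]; simp only
      rw [if_pos (by rw [← mul_add]; exact even_two_mul _)]
      congr 1; omega
    have h2' : c (2 * i + 1 + 2 * n) = 0 := by
      rw [hc]; simp only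
      rw [if_neg (by rw [Nat.not_even_iff_odd]; exact ⟨i + n, by ring⟩)]
    rw [h1, h2', mul_zero, add_zero]
  have vo : ∀ n, act Q₁ c (2 * n + 1) = act Qo a (n + 1) := by
    intro n
    rw [act_apply' Q₁ c _ (2 * (Q₁.natDegree + 1)) (by omega), sumsplit]
    by_cases h : Qo = 0
    · have hz : act Qo a (n + 1) = 0 := by
        rw [h, act_apply]; simp
      rw [hz]
      refine Finset.sum_eq_zero fun i _ => ?_
      have h1 : c (2 * i + (2 * n + 1)) = 0 := by
        rw [hc]; simp only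
        rw [if_neg (by rw [Nat.not_even_iff_odd]; exact ⟨i + n, by ring⟩)]
      have h2' : Q₁.coeff (2 * i + 1) = 0 := by rw [← co, h, coeff_zero]
      rw [h1, h2', mul_zero, zero_mul, add_zero]
    · have := dO h
      rw [act_apply' Qo _ _ (Q₁.natDegree + 1) (by omega)]
      refine Finset.sum_congr rfl fun i _ => ?_
      rw [co]
      have h1 : c (2 * i + (2 * n + 1)) = 0 := by
        rw [hc]; simp only
        rw [if_neg (by rw [Nat.not_even_iff_odd]; exact ⟨i + n, by ring⟩)]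
      have h2' : c (2 * i + 1 + (2 * n + 1)) = a (i + (n + 1)) := by
        rw [hc]; simp only
        rw [if_pos ⟨i + n + 1, by ring⟩]
        congr 1; omega
      rw [h1, h2', mul_zero, zero_add]
  have hne : Qe ≠ 0 ∨ Qo ≠ 0 := by
    by_contra hcc
    push Not at hcc
    apply hQ₁0
    ext i
    rcases Nat.even_or_odd' i with ⟨l, rfl | rfl⟩
    · rw [← ce, hcc.1]; simp
    · rw [← co, hcc.2]; simp
  rcases hne with h | h
  · obtain ⟨j, hj1, hj2, hj3⟩ := ih Qe.natDegree (by omega) Qe rfl h (k / 2)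
    apply hj3
    rw [← ve, ← hact]
    have := hcon (2 * (k / 2 + j) - k) (by omega) (by omega)
    rwa [show k + (2 * (k / 2 + j) - k) = 2 * (k / 2 + j) by omega] at this
  · have hdo := dO h
    obtain ⟨j, hj1, hj2, hj3⟩ := ih Qo.natDegree (by omega) Qo rfl h ((k + 1) / 2)
    apply hj3
    have e : (k + 1) / 2 + j = ((k + 1) / 2 + j - 1) + 1 := by omega
    rw [e, ← vo, ← hact]
    have := hcon (2 * ((k + 1) / 2 + j - 1) + 1 - k) (by omega) (by omega)
    rwa [show k + (2 * ((k + 1) / 2 + j - 1) + 1 - k) = 2 * ((k + 1) / 2 + j - 1) + 1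
      by omega] at this

/-! ### large windows can be doubled -/

lemma expand_sum (Q : F[X]) (c : ℕ → F) (n : ℕ) :
    act (expand F 2 Q) c n = ∑ i ∈ Finset.range (Q.natDegree + 1), Q.coeff i * c (2 * i + n) := by
  have h : expand F 2 Q = ∑ i ∈ Finset.range (Q.natDegree + 1), C (Q.coeff i) * X ^ (2 * i) := by
    conv_lhs => rw [Q.as_sum_range_C_mul_X_pow]
    rw [map_sum]
    refine Finset.sum_congr rfl fun i _ => ?_
    rw [map_mul, expand_C, map_pow, expand_X, ← pow_mul]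
  rw [h]
  unfold act
  rw [map_sum, LinearMap.sum_apply, Finset.sum_apply]
  refine Finset.sum_congr rfl fun i _ => ?_
  rw [map_mul, aeval_C, map_pow, aeval_X, Module.End.mul_apply, Module.algebraMap_end_apply, Pi.smul_apply,
    shiftOp_pow_apply, smul_eq_mul]

/-- doubling of a window -/
lemma pump (m : ℕ) (Q : F[X]) (hQ0 : Q ≠ 0) (k w : ℕ)
    (hQ : ∀ j, 1 ≤ j → j ≤ Q.natDegree + w → act Q (dF F m) (k + j) = 0) :
    ∃ Q' : F[X], Q' ≠ 0 ∧ Q'.natDegree = 2 * Q.natDegree + 2 ^ m ∧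
      ∀ j, 1 ≤ j → j ≤ 2 * (Q.natDegree + w) + 1 → act Q' (dF F m) (2 * k + j) = 0 := by
  have hE0 : expand F 2 Q ≠ 0 := (expand_ne_zero (by norm_num)).2 hQ0
  refine ⟨expand F 2 Q * PM F m, mul_ne_zero hE0 (PM_monic m).ne_zero, ?_, ?_⟩
  · rw [natDegree_mul hE0 (PM_monic m).ne_zero, natDegree_expand, PM_natDegree, mul_comm]
  · intro j hj1 hj2
    rw [act_mul, act_PM, expand_sum]
    rcases Nat.even_or_odd' j with ⟨l, rfl | rfl⟩
    · rw [← hQ l (by omega) (by omega), act_apply]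
      refine Finset.sum_congr rfl fun i _ => ?_
      rw [if_pos (by rw [← mul_add, ← mul_add]; exact even_two_mul _)]
      congr 2
      omega
    · refine Finset.sum_eq_zero fun i _ => ?_
      rw [if_neg (by rw [Nat.not_even_iff_odd]; exact ⟨i + k + l, by ring⟩), mul_zero]

/-- a window of excess `M` gives windows of arbitrarily large excess -/
lemma pump_all (m : ℕ) (Q : F[X]) (hQ0 : Q ≠ 0) (k : ℕ)
    (hQ : ∀ j, 1 ≤ j → j ≤ Q.natDegree + 2 ^ m → act Q (dF F m) (k + j) = 0) (t : ℕ) :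
    ∃ (Q' : F[X]) (k' : ℕ), Q' ≠ 0 ∧
      ∀ j, 1 ≤ j → j + 1 ≤ Q'.natDegree + 2 ^ m + 2 ^ t → act Q' (dF F m) (k' + j) = 0 := by
  induction t with
  | zero =>
    refine ⟨Q, k, hQ0, fun j h1 h3 => hQ j h1 ?_⟩
    rw [pow_zero] at h3
    omega
  | succ t ih =>
    obtain ⟨Q', k', hQ', hz⟩ := ih
    have hM : 0 < 2 ^ m := by positivity
    have hT : 0 < 2 ^ t := by positivity
    obtain ⟨Q'', h0, hd, hz'⟩ := pump m Q' hQ' k' (2 ^ m + 2 ^ t - 1) (fun j h1 h3 => hz j h1 (by omega))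
    refine ⟨Q'', 2 * k', h0, fun j h1 h3 => hz' j h1 ?_⟩
    rw [pow_succ] at h3
    omega

/-! ### characteristic 17, level 2 -/

/-- `lev` with fuel -/
def levF (m : ℕ) : ℕ → ℕ → ℕ
  | 0, _ => 0
  | t + 1, n => if n % 2 = 0 then levF m t (n / 2) else n % 2 ^ (m + 1) / 2

lemma levF_eq (m t : ℕ) : ∀ n, n < 2 ^ t → levF m t n = lev m n := by
  induction t with
  | zero =>
    intro n hn
    obtain rfl : n = 0 := by simpa using hn
    rw [levF, lev, if_pos rfl]
  | succ t ih =>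
    intro n hn
    rw [levF]
    split_ifs with h
    · rw [ih (n / 2) (by rw [pow_succ] at hn; omega)]
      conv_rhs => rw [show n = 2 * (n / 2) by omega, lev_two_mul]
    · rw [lev_odd m n (by omega)]

/-- coefficients of a polynomial with a large window modulo 17 -/
def q17 : List ℤ :=
  [10, 12, 3, 7, 6, 14, 7, 5, 15, 1, 14, 10, 4, 15, 15, 1, 3, 7, 12, 11, 9, 4, 10, 12, 4, 15, 15, 1, 10, 12, 9, 4, 6,
    14, 9, 4, 12, 11, 3, 7, 14, 10, 15, 1]

lemma cert17 : ∀ j < 47, (∑ i ∈ Finset.range 44,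
    q17.getD i 0 * ((levF 2 8 (i + (61 + j) + 4) : ℤ) - levF 2 8 (i + (61 + j)))) % 17 = 0 := by
  decide +kernel

lemma window17 [CharP F 17] : ∃ Q : F[X], Q ≠ 0 ∧
    ∀ j, 1 ≤ j → j ≤ Q.natDegree + 2 ^ 2 → act Q (dF F 2) (60 + j) = 0 := by
  set Q : F[X] := ∑ i ∈ Finset.range 44, C ((q17.getD i 0 : ℤ) : F) * X ^ i with hQ
  have hc : ∀ n, n < 44 → Q.coeff n = ((q17.getD n 0 : ℤ) : F) := by
    intro n hn
    rw [hQ, finsetSum_coeff, Finset.sum_eq_single_of_mem n (Finset.mem_range.2 hn)]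
    · simp
    · intro i _ hi
      rw [coeff_C_mul, coeff_X_pow, if_neg (Ne.symm hi), mul_zero]
  have hle : Q.natDegree ≤ 43 := by
    refine natDegree_sum_le_of_forall_le _ _ fun i hi => ?_
    refine (natDegree_C_mul_X_pow_le _ _).trans ?_
    have := Finset.mem_range.1 hi
    omega
  refine ⟨Q, ?_, ?_⟩
  · intro h0
    have h1 := hc 43 (by norm_num)
    rw [h0, coeff_zero] at h1
    have h3 : q17.getD 43 0 = 1 := by decide
    rw [h3, Int.cast_one] at h1
    exact zero_ne_one h1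
  · intro j hj1 hj2
    obtain ⟨l, rfl⟩ : ∃ l, j = l + 1 := ⟨j - 1, by omega⟩
    have hl : l < 47 := by
      have : l + 1 ≤ Q.natDegree + 4 := hj2
      omega
    rw [act_apply' Q _ _ 44 (by omega)]
    have h1 := cert17 l hl
    have h2 : (((∑ i ∈ Finset.range 44,
        q17.getD i 0 * ((levF 2 8 (i + (61 + l) + 4) : ℤ) - levF 2 8 (i + (61 + l))) : ℤ)) : F) = 0 :=
      (CharP.intCast_eq_zero_iff F 17 _).2 (Int.dvd_of_emod_eq_zero h1)
    rw [← h2, Int.cast_sum]
    refine Finset.sum_congr rfl fun i hi => ?_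
    have hi' := Finset.mem_range.1 hi
    rw [hc i hi', Int.cast_mul]
    congr 1
    unfold dF dl
    rw [levF_eq 2 8 _ (by norm_num; omega), levF_eq 2 8 _ (by norm_num; omega),
      show i + (60 + (l + 1)) = i + (61 + l) by ring]
    norm_num

end Pool.Agent.H96.TLC
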