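import Mathlib

/-!
# The t-adic Littlewood conjecture fails in odd characteristic: core argument

The sequence `seqA β` is the coefficient sequence of the unique Laurent series `Ψ` in `1/t`
with `(t ^ 2 - β) Ψ(t) = t + Ψ(t ^ 2)`.
-/

set_option autoImplicit false

open Polynomial

namespace Pool.Agent.H96.TLC

variable {F : Type*} [Field F]

/-- `a 0 = 0`, `a 1 = 1`, `a (n + 2) = β * a n + [n even] a (n / 2)`. -/
def seqA (β : F) : ℕ → F
  | 0 => 0
  | 1 => 1
  | (n + 2) => β * seqA β n + if Even n then seqA β (n / 2) else 0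
decreasing_by all_goals omega

/-- the shift operator on sequences -/
def shiftOp : Module.End F (ℕ → F) where
  toFun a n := a (n + 1)
  map_add' _ _ := rfl
  map_smul' _ _ := rfl

/-- action of a polynomial on a sequence: `(Q • a) n = ∑ Q_i a (i + n)` -/
noncomputable def act (Q : F[X]) (a : ℕ → F) : ℕ → F := aeval (shiftOp (F := F)) Q a

lemma shiftOp_pow_apply (a : ℕ → F) (i n : ℕ) : ((shiftOp (F := F)) ^ i) a n = a (i + n) := by
  induction i generalizing n with
  | zero => simp
  | succ i ih =>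
    rw [pow_succ', Module.End.mul_apply]
    show ((shiftOp (F := F)) ^ i) a (n + 1) = _
    rw [ih]; congr 1; omega

lemma act_apply (Q : F[X]) (a : ℕ → F) (n : ℕ) :
    act Q a n = ∑ i ∈ Finset.range (Q.natDegree + 1), Q.coeff i * a (i + n) := by
  unfold act
  rw [aeval_eq_sum_range, LinearMap.sum_apply, Finset.sum_apply]
  refine Finset.sum_congr rfl fun i _ => ?_
  rw [LinearMap.smul_apply, Pi.smul_apply, shiftOp_pow_apply, smul_eq_mul]

lemma act_apply' (Q : F[X]) (a : ℕ → F) (n M : ℕ) (hM : Q.natDegree < M) :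
    act Q a n = ∑ i ∈ Finset.range M, Q.coeff i * a (i + n) := by
  rw [act_apply]
  refine Finset.sum_subset (Finset.range_subset_range.2 (by omega)) ?_
  intro i _ hi
  rw [coeff_eq_zero_of_natDegree_lt, zero_mul]
  simp at hi; omega

lemma act_mul (P Q : F[X]) (a : ℕ → F) : act (P * Q) a = act P (act Q a) := by
  unfold act; rw [map_mul, Module.End.mul_apply]

lemma act_add_left (P Q : F[X]) (a : ℕ → F) : act (P + Q) a = act P a + act Q a := by
  unfold act; rw [map_add, LinearMap.add_apply]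

lemma act_sub_right (P : F[X]) (a b : ℕ → F) : act P (a - b) = act P a - act P b := by
  unfold act; rw [map_sub]

lemma act_zero_right (P : F[X]) : act P (0 : ℕ → F) = 0 := by
  unfold act; rw [map_zero]

lemma seqA_odd (β : F) (i : ℕ) : seqA β (2 * i + 1) = β ^ i := by
  induction i with
  | zero => simp [seqA]
  | succ i ih =>
    have : 2 * (i + 1) + 1 = (2 * i + 1) + 2 := by ring
    rw [this, seqA, ih]
    have h : ¬ Even (2 * i + 1) := by simp
    rw [if_neg h]; ring

/-- `(t ^ 2 - β) • a` is supported on even indices where it is `a (n / 2)`. -/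
lemma act_D (β : F) : act (X ^ 2 - C β : F[X]) (seqA β) =
    fun n => if Even n then seqA β (n / 2) else 0 := by
  funext n
  rw [act_apply' _ _ _ 3 (by rw [natDegree_X_pow_sub_C]; norm_num)]
  rw [Finset.sum_range_succ, Finset.sum_range_succ, Finset.sum_range_succ, Finset.sum_range_zero]
  have h2 : 2 + n = n + 2 := by ring
  have h0 : 0 + n = n := by ring
  rw [h2, h0, seqA]
  have c0 : (X ^ 2 - C β : F[X]).coeff 0 = -β := by simp
  have c1 : (X ^ 2 - C β : F[X]).coeff 1 = 0 := by simp [coeff_X_pow]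
  have c2 : (X ^ 2 - C β : F[X]).coeff 2 = 1 := by simp [coeff_X_pow]
  rw [c0, c1, c2]; ring

/-- sign twist -/
def tw (a : ℕ → F) : ℕ → F := fun n => (-1) ^ n * a n

lemma act_comp_neg (Q : F[X]) (a : ℕ → F) (n : ℕ) :
    act (Q.comp (-X)) (tw a) n = (-1) ^ n * act Q a n := by
  have hX : (-X : F[X]) = C (-1) * X := by simp
  have hd : (Q.comp (-X)).natDegree ≤ Q.natDegree := by
    refine (natDegree_comp_le).trans ?_
    simp
  rw [act_apply' _ _ _ (Q.natDegree + 1) (by omega), act_apply, Finset.mul_sum]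
  refine Finset.sum_congr rfl fun i _ => ?_
  rw [hX, comp_C_mul_X_coeff]
  unfold tw
  rw [pow_add]
  have : ((-1 : F) ^ i) * (-1) ^ i = 1 := by rw [← mul_pow]; simp
  linear_combination (Q.coeff i * (-1) ^ n * a (i + n)) * this

lemma act_eq_zero_of (Q : F[X]) (a : ℕ → F) (n : ℕ)
    (h : ∀ i, i ≤ Q.natDegree → a (i + n) = 0) : act Q a n = 0 := by
  rw [act_apply]
  refine Finset.sum_eq_zero fun i hi => ?_
  rw [h i (by simpa [Nat.lt_succ_iff] using hi), mul_zero]

/-- The odd part of the sequence. -/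
lemma oddPart_odd (β : F) (i : ℕ) :
    (seqA β - tw (seqA β)) (2 * i + 1) = 2 * β ^ i := by
  rw [Pi.sub_apply]; unfold tw
  rw [seqA_odd]
  have : ((-1 : F)) ^ (2 * i + 1) = -1 := by rw [pow_succ, pow_mul]; simp
  rw [this]; ring

lemma oddPart_even (β : F) (i : ℕ) :
    (seqA β - tw (seqA β)) (2 * i) = 0 := by
  rw [Pi.sub_apply]; unfold tw
  have : ((-1 : F)) ^ (2 * i) = 1 := by rw [pow_mul]; simp
  rw [this]; ring

lemma natDegree_D (β : F) : (X ^ 2 - C β : F[X]).natDegree = 2 := natDegree_X_pow_sub_C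

lemma act_D_oddPart (β : F) : act (X ^ 2 - C β : F[X]) (seqA β - tw (seqA β)) = 0 := by
  funext n
  rw [act_apply' _ _ _ 3 (by rw [natDegree_D]; norm_num)]
  rw [Finset.sum_range_succ, Finset.sum_range_succ, Finset.sum_range_succ, Finset.sum_range_zero]
  have c0 : (X ^ 2 - C β : F[X]).coeff 0 = -β := by simp
  have c1 : (X ^ 2 - C β : F[X]).coeff 1 = 0 := by simp [coeff_X_pow]
  have c2 : (X ^ 2 - C β : F[X]).coeff 2 = 1 := by simp [coeff_X_pow]
  rw [c0, c1, c2]
  rcases Nat.even_or_odd' n with ⟨i, rfl | rfl⟩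
  · have h2 : 2 + 2 * i = 2 * (i + 1) := by ring
    have h0 : 0 + 2 * i = 2 * i := by ring
    rw [h2, h0, oddPart_even, oddPart_even]; simp
  · have h2 : 2 + (2 * i + 1) = 2 * (i + 1) + 1 := by ring
    have h0 : 0 + (2 * i + 1) = 2 * i + 1 := by ring
    rw [h2, h0, oddPart_odd, oddPart_odd]; simp; ring

lemma dvd_of_vanish (β : F) (hβ : ∀ b : F, b ^ 2 ≠ β) (h2 : (2 : F) ≠ 0) (Q : F[X]) (k : ℕ)
    (hQ : ∀ j, 1 ≤ j → j ≤ Q.natDegree + 2 → act Q (seqA β) (k + j) = 0) :
    (X ^ 2 - C β : F[X]) ∣ Q := by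
  set D : F[X] := X ^ 2 - C β with hD
  have hDm : D.Monic := monic_X_pow_sub_C β (by norm_num)
  have hβ0 : β ≠ 0 := fun h => hβ 0 (by simp [h])
  have hirr : Irreducible D := X_pow_sub_C_irreducible_of_prime Nat.prime_two hβ
  set a := seqA β with ha
  set b := a - tw a with hb
  set E : F[X] := Q.comp (-X) * Q with hE
  have hd : (Q.comp (-X)).natDegree ≤ Q.natDegree := by
    refine (natDegree_comp_le).trans ?_
    simp
  have hEb : ∀ n, k + 1 ≤ n → n ≤ k + 2 → act E b n = 0 := by
    intro n h1 h2'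
    rw [hb, act_sub_right, Pi.sub_apply]
    have e1 : act E a n = 0 := by
      rw [hE, act_mul]
      refine act_eq_zero_of _ _ _ fun i hi => ?_
      have := hQ (i + n - k) (by omega) (by omega)
      rwa [show k + (i + n - k) = i + n by omega] at this
    have e2 : act E (tw a) n = 0 := by
      rw [hE, mul_comm, act_mul]
      refine act_eq_zero_of _ _ _ fun i hi => ?_
      rw [act_comp_neg]
      have := hQ (i + n - k) (by omega) (by omega)
      rw [show k + (i + n - k) = i + n by omega] at this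
      rw [this, mul_zero]
    rw [e1, e2, sub_zero]
  have hER : ∀ n, act E b n = act (E %ₘ D) b n := by
    intro n
    have := modByMonic_add_div E (q := D)
    conv_lhs => rw [← this]
    rw [act_add_left, mul_comm, act_mul]
    rw [hb, ha, act_D_oddPart, act_zero_right]
    simp
  have hRdeg : (E %ₘ D).natDegree < 2 := by
    have := natDegree_modByMonic_lt E hDm (by
      intro h
      have := natDegree_D β
      rw [← hD, h] at this; simp at this)
    rwa [natDegree_D] at this
  have hRn : ∀ n, act (E %ₘ D) b n = (E %ₘ D).coeff 0 * b n + (E %ₘ D).coeff 1 * b (n + 1) := by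
    intro n
    rw [act_apply' _ _ _ 2 hRdeg, Finset.sum_range_succ, Finset.sum_range_succ,
      Finset.sum_range_zero]
    rw [show 0 + n = n by ring, show 1 + n = n + 1 by ring]; ring
  have key : ∀ i n, n = 2 * i + 1 → k + 1 ≤ n → n ≤ k + 2 → (E %ₘ D).coeff 0 = 0 := by
    intro i n hn h1 h3
    have h := hEb n h1 h3
    rw [hER, hRn, hn, show 2 * i + 1 + 1 = 2 * (i + 1) by ring] at h
    rw [hb, ha, oddPart_odd, oddPart_even, mul_zero, add_zero] at h
    have hne : 2 * β ^ i ≠ 0 := mul_ne_zero h2 (pow_ne_zero _ hβ0)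
    exact (mul_eq_zero.mp h).resolve_right hne
  have key' : ∀ i n, n = 2 * i → k + 1 ≤ n → n ≤ k + 2 → (E %ₘ D).coeff 1 = 0 := by
    intro i n hn h1 h3
    have h := hEb n h1 h3
    rw [hER, hRn, hn] at h
    rw [hb, ha, oddPart_odd, oddPart_even, mul_zero, zero_add] at h
    have hne : 2 * β ^ i ≠ 0 := mul_ne_zero h2 (pow_ne_zero _ hβ0)
    exact (mul_eq_zero.mp h).resolve_right hne
  have hR0 : (E %ₘ D).coeff 0 = 0 ∧ (E %ₘ D).coeff 1 = 0 := by
    rcases Nat.even_or_odd' k with ⟨i, hi | hi⟩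
    · exact ⟨key i (k + 1) (by omega) (by omega) (by omega),
        key' (i + 1) (k + 2) (by omega) (by omega) (by omega)⟩
    · exact ⟨key (i + 1) (k + 2) (by omega) (by omega) (by omega),
        key' (i + 1) (k + 1) (by omega) (by omega) (by omega)⟩
  have hRz : E %ₘ D = 0 := by
    ext i
    rcases lt_or_ge i 2 with hi | hi
    · interval_cases i
      · simpa using hR0.1
      · simpa using hR0.2
    · rw [coeff_eq_zero_of_natDegree_lt (by omega), coeff_zero]
  have hdvd : D ∣ E := (modByMonic_eq_zero_iff_dvd hDm).mp hRz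
  rcases hirr.prime.dvd_or_dvd hdvd with h | h
  · rw [dvd_comp_neg_X_iff] at h
    have : D.comp (-X) = D := by simp [hD]
    rwa [this] at h
  · exact h

/-- Main theorem in sequence form. -/
theorem main (β : F) (hβ : ∀ b : F, b ^ 2 ≠ β) (h2 : (2 : F) ≠ 0) :
    ∀ (d : ℕ) (Q : F[X]), Q.natDegree = d → Q ≠ 0 → ∀ k : ℕ,
      ∃ j, 1 ≤ j ∧ j ≤ Q.natDegree + 2 ∧ act Q (seqA β) (k + j) ≠ 0 := by
  intro d
  induction d using Nat.strong_induction_on with
  | _ d ih =>
  intro Q hQd hQ0 k
  by_contra hcon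
  push Not at hcon
  obtain ⟨Q₁, hQ₁⟩ := dvd_of_vanish β hβ h2 Q k hcon
  have hD0 : (X ^ 2 - C β : F[X]) ≠ 0 := X_pow_sub_C_ne_zero (by norm_num) β
  have hQ₁0 : Q₁ ≠ 0 := by rintro rfl; exact hQ0 (by rw [hQ₁, mul_zero])
  have hdeg : Q.natDegree = 2 + Q₁.natDegree := by
    rw [hQ₁, natDegree_mul hD0 hQ₁0, natDegree_D]
  set c : ℕ → F := fun n => if Even n then seqA β (n / 2) else 0 with hc
  have hact : act Q (seqA β) = act Q₁ c := by
    rw [hQ₁, mul_comm, act_mul, act_D]
  -- even and odd parts of `Q₁`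
  set Qe := contract 2 Q₁ with hQe
  set Qo := contract 2 (divX Q₁) with hQo
  have ce : ∀ i, Qe.coeff i = Q₁.coeff (2 * i) := by
    intro i; rw [hQe, coeff_contract (by norm_num), mul_comm]
  have co : ∀ i, Qo.coeff i = Q₁.coeff (2 * i + 1) := by
    intro i; rw [hQo, coeff_contract (by norm_num), mul_comm, coeff_divX]
  have de : 2 * Qe.natDegree ≤ Q₁.natDegree := by
    by_cases h : Qe = 0
    · rw [h]; simp
    · have : Q₁.coeff (2 * Qe.natDegree) ≠ 0 := by
        rw [← ce]; exact leadingCoeff_ne_zero.mpr h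
      exact le_natDegree_of_ne_zero this
  have dO : Qo ≠ 0 → 2 * Qo.natDegree + 1 ≤ Q₁.natDegree := by
    intro h
    have : Q₁.coeff (2 * Qo.natDegree + 1) ≠ 0 := by
      rw [← co]; exact leadingCoeff_ne_zero.mpr h
    exact le_natDegree_of_ne_zero this
  -- value of the action of `Q₁` on `c`
  have sumsplit : ∀ (M : ℕ) (f : ℕ → F), ∑ i ∈ Finset.range (2 * M), f i =
      ∑ i ∈ Finset.range M, (f (2 * i) + f (2 * i + 1)) := by
    intro M f
    induction M with
    | zero => simp
    | succ M ihM =>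
      rw [show 2 * (M + 1) = 2 * M + 1 + 1 by ring, Finset.sum_range_succ, Finset.sum_range_succ,
        ihM, Finset.sum_range_succ]
      ring
  have ve : ∀ n, act Q₁ c (2 * n) = act Qe (seqA β) n := by
    intro n
    rw [act_apply' Q₁ c _ (2 * (Q₁.natDegree + 1)) (by omega),
      act_apply' Qe _ _ (Q₁.natDegree + 1) (by omega), sumsplit]
    refine Finset.sum_congr rfl fun i _ => ?_
    rw [ce]
    have h1 : c (2 * i + 2 * n) = seqA β (i + n) := by
      rw [hc]; simp only
      rw [if_pos (by rw [← mul_add]; exact even_two_mul _)]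
      congr 1; omega
    have h2' : c (2 * i + 1 + 2 * n) = 0 := by
      rw [hc]; simp only
      rw [if_neg (by rw [Nat.not_even_iff_odd]; exact ⟨i + n, by ring⟩)]
    rw [h1, h2', mul_zero, add_zero]
  have vo : ∀ n, act Q₁ c (2 * n + 1) = act Qo (seqA β) (n + 1) := by
    intro n
    rw [act_apply' Q₁ c _ (2 * (Q₁.natDegree + 1)) (by omega), sumsplit]
    by_cases h : Qo = 0
    · have hz : act Qo (seqA β) (n + 1) = 0 := by
        rw [h, act_apply]; simp
      rw [hz]
      refine Finset.sum_eq_zero fun i _ => ?_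
      have h1 : c (2 * i + (2 * n + 1)) = 0 := by
        rw [hc]; simp only
        rw [if_neg (by rw [Nat.not_even_iff_odd]; exact ⟨i + n, by ring⟩)]
      have h2' : Q₁.coeff (2 * i + 1) = 0 := by rw [← co, h, coeff_zero]
      rw [h1, h2', mul_zero, zero_mul, add_zero]
    · have := dO h
      rw [act_apply' Qo _ _ (Q₁.natDegree + 1) (by omega)]
      refine Finset.sum_congr rfl fun i _ => ?_
      rw [co]
      have h1 : c (2 * i + (2 * n + 1)) = 0 := by
        rw [hc]; simp only
        rw [if_neg (by rw [Nat.not_even_iff_odd]; exact ⟨i + n, by ring⟩)]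
      have h2' : c (2 * i + 1 + (2 * n + 1)) = seqA β (i + (n + 1)) := by
        rw [hc]; simp only
        rw [if_pos ⟨i + n + 1, by ring⟩]
        congr 1; omega
      rw [h1, h2', mul_zero, zero_add]
  have hne : Qe ≠ 0 ∨ Qo ≠ 0 := by
    by_contra hcc
    push Not at hcc
    apply hQ₁0
    ext i
    rcases Nat.even_or_odd' i with ⟨l, rfl | rfl⟩
    · rw [← ce, hcc.1]; simp
    · rw [← co, hcc.2]; simp
  rcases hne with h | h
  · obtain ⟨j, hj1, hj2, hj3⟩ := ih Qe.natDegree (by omega) Qe rfl h (k / 2)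
    apply hj3
    rw [← ve, ← hact]
    have := hcon (2 * (k / 2 + j) - k) (by omega) (by omega)
    rwa [show k + (2 * (k / 2 + j) - k) = 2 * (k / 2 + j) by omega] at this
  · have hdo := dO h
    obtain ⟨j, hj1, hj2, hj3⟩ := ih Qo.natDegree (by omega) Qo rfl h ((k + 1) / 2)
    apply hj3
    have e : (k + 1) / 2 + j = ((k + 1) / 2 + j - 1) + 1 := by omega
    rw [e, ← vo, ← hact]
    have := hcon (2 * ((k + 1) / 2 + j - 1) + 1 - k) (by omega) (by omega)
    rwa [show k + (2 * ((k + 1) / 2 + j - 1) + 1 - k) = 2 * ((k + 1) / 2 + j - 1) + 1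
      by omega] at this

end Pool.Agent.H96.TLC
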